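import Mathlib
import Pool.Agent.N718.DC.Stm

/-!
# Small prime solutions of `a p + b q + c r = 0` for almost all `(a, b, c)` (project LB, helper718)

Definitions and statements of the parts. The whole proof is described in the subtasks.
-/

set_option autoImplicit false
set_option linter.all false

namespace Pool.Agent.N718.LB

open Finset

/-- The integral vectors with coordinates of absolute value at most `H`. -/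
noncomputable def V3 (H : ℕ) : Finset (Fin 3 → ℤ) := Fintype.piFinset (fun _ => Icc (-(H : ℤ)) H)

/-- The cross product. -/
def cr (v w : Fin 3 → ℤ) : Fin 3 → ℤ :=
  ![v 1 * w 2 - v 2 * w 1, v 2 * w 0 - v 0 * w 2, v 0 * w 1 - v 1 * w 0]

/-- The scalar product. -/
def dt (v w : Fin 3 → ℤ) : ℤ := v 0 * w 0 + v 1 * w 1 + v 2 * w 2

/-- The conditions on the coefficients: they are different from zero, not all of the same sign, pairwise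
coprime, and their sum is even. -/
def Adm (a : Fin 3 → ℤ) : Prop :=
  (∀ i, a i ≠ 0) ∧ ¬ (∀ i, 0 < a i) ∧ ¬ (∀ i, a i < 0) ∧ (∀ i j, i ≠ j → IsCoprime (a i) (a j)) ∧
    Even (a 0 + a 1 + a 2)

/-- The equation `a₀ p₀ + a₁ p₁ + a₂ p₂ = 0` has a solution in primes `p i ≤ X`. -/
def PSol (X : ℝ) (a : Fin 3 → ℤ) : Prop :=
  ∃ P : Fin 3 → ℕ, (∀ i, (P i).Prime ∧ (P i : ℝ) ≤ X) ∧ a 0 * P 0 + a 1 * P 1 + a 2 * P 2 = 0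

/-! ### Prime values of linear forms -/

/-- Part PTSK: the sample points, with an exponent `κ` which depends only on `n`. -/
def S_PTSK : Prop := ∀ n : ℕ, ∃ κ : ℕ, ∀ (M : ℕ) (a₀ a₁ : ℤ) (α β : ℝ), 1 ≤ M → α < β → ∃ H₀ : ℕ,
  ∀ H : ℕ, H₀ ≤ H → ∃ (g q' : ℕ) (y₀ : ℤ) (T : ℕ), g ∣ M ∧ q'.Prime ∧ ¬ q' ∣ M ∧
    (M : ℤ) ∣ ((g * q' : ℕ) : ℤ) - a₀ ∧ (M : ℤ) ∣ y₀ - a₁ ∧
    (∀ t < T, α * ((g * q' : ℕ) : ℝ) < (y₀ + M * t : ℤ) ∧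
      ((y₀ + M * t : ℤ) : ℝ) < β * ((g * q' : ℕ) : ℝ)) ∧
    Real.log H ^ n ≤ T ∧ Real.log H ^ n ≤ q' ∧ ((g * q' : ℕ) : ℝ) ≤ Real.log H ^ κ ∧
    (T : ℝ) ≤ Real.log H ^ κ ∧ (∀ t < T, |((y₀ + M * t : ℤ) : ℝ)| ≤ Real.log H ^ κ)

open Classical in
/-- Part LAMT: for almost all pairs of vectors in given residue classes for which the forms
`s (v i + w i z)` are positive on an interval, there are small `x`, `y` for which the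
`s (x v i + y w i)` are prime numbers. -/
def S_LAMT : Prop := ∃ κ : ℕ, ∃ C : ℝ, 0 ≤ C ∧ ∀ W M : ℕ, 1 ≤ W → 1 ≤ M → 2 ∣ M →
  (∀ p : ℕ, p.Prime → p ≤ W → p ∣ M) → (∀ p : ℕ, p.Prime → p ∣ M → p ≤ W) →
  ∀ (a₀ a₁ : ℤ) (α β : ℝ), α < β → ∀ (γ δ : Fin 3 → ℤ) (s : ℤ), (s = 1 ∨ s = -1) →
    (∀ i, IsCoprime (γ i * a₀ + δ i * a₁) (M : ℤ)) →
  ∃ H₀ : ℕ, ∀ H : ℕ, H₀ ≤ H →
    (((V3 H ×ˢ V3 H).filter (fun v =>
      (∀ i, (M : ℤ) ∣ v.1 i - γ i ∧ (M : ℤ) ∣ v.2 i - δ i) ∧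
      (∀ i, ∀ z : ℝ, α < z → z < β → 0 < (s : ℝ) * (v.1 i + v.2 i * z)) ∧
      ¬ ∃ x y : ℤ, |(x : ℝ)| ≤ Real.log H ^ κ ∧ |(y : ℝ)| ≤ Real.log H ^ κ ∧
        ∃ P : Fin 3 → ℕ, ∀ i, (P i).Prime ∧ s * (x * v.1 i + y * v.2 i) = P i)).card : ℝ) ≤
      C / W * (((2 * H + 1 : ℕ) : ℝ) / M) ^ 6

/-! ### Geometry of numbers -/

/-- Part LAT: a short basis of the lattice orthogonal to a primitive vector. -/
def S_LAT : Prop := ∀ a : Fin 3 → ℤ, (∃ t : Fin 3 → ℤ, dt t a = 1) →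
  ∃ v w : Fin 3 → ℤ, cr v w = a ∧ v ≠ 0 ∧ dt v v ≤ dt w w ∧ 3 * dt v v * dt w w ≤ 4 * dt a a

open Classical in
/-- Part SHORT: few vectors are orthogonal to short vectors. -/
def S_SHORT : Prop := ∃ C : ℝ, 0 ≤ C ∧ ∀ A R : ℕ, 1 ≤ R → R ≤ A →
  (((V3 A).filter (fun a => ∃ v : Fin 3 → ℤ, v ≠ 0 ∧ (∀ i, |v i| ≤ R) ∧ dt a v = 0)).card : ℝ) ≤
    C * (A : ℝ) ^ 2 * (R : ℝ) ^ 2

/-! ### Local conditions -/

/-- Part LOC: there is a point of the lattice whose coordinates are coprime to `M`. -/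
def S_LOC : Prop := ∀ M : ℕ, 1 ≤ M → ∀ v w : Fin 3 → ℤ,
  (∀ i j, i ≠ j → IsCoprime (cr v w i) (cr v w j)) → Even (cr v w 0 + cr v w 1 + cr v w 2) →
  ∃ a₀ a₁ : ℤ, ∀ i, IsCoprime (v i * a₀ + w i * a₁) (M : ℤ)

/-- Part SIGN: the lattice plane contains a vector with positive coordinates. -/
def S_SIGN : Prop := ∀ v w : Fin 3 → ℤ, (∀ i, cr v w i ≠ 0) → ¬ (∀ i, 0 < cr v w i) →
  ¬ (∀ i, cr v w i < 0) → ∃ (s : ℤ) (t : ℝ), (s = 1 ∨ s = -1) ∧ ∀ i, 0 < (s : ℝ) * (v i + w i * t)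

open Classical in
/-- Part INT: for most pairs of vectors for which this is so, the coordinates are positive on one of
finitely many intervals. -/
def S_INT : Prop := ∀ η : ℝ, 0 < η → ∃ (Z : Finset (ℝ × ℝ)) (H₀ : ℕ), (∀ z ∈ Z, z.1 < z.2) ∧
  ∀ H : ℕ, H₀ ≤ H →
    (((V3 H ×ˢ V3 H).filter (fun v =>
      (∃ (s : ℤ) (t : ℝ), (s = 1 ∨ s = -1) ∧ ∀ i, 0 < (s : ℝ) * (v.1 i + v.2 i * t)) ∧
      ¬ ∃ z ∈ Z, ∃ s : ℤ, (s = 1 ∨ s = -1) ∧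
        ∀ i, ∀ t : ℝ, z.1 < t → t < z.2 → 0 < (s : ℝ) * (v.1 i + v.2 i * t))).card : ℝ) ≤
      η * ((2 * H + 1 : ℕ) : ℝ) ^ 6

/-! ### Main theorem -/

open Classical in
/-- Part MAINL: almost all pairs of vectors. -/
def S_MAINL : Prop := ∃ κ : ℕ, ∀ η : ℝ, 0 < η → ∃ H₀ : ℕ, ∀ H : ℕ, H₀ ≤ H →
  (((V3 H ×ˢ V3 H).filter (fun v => Adm (cr v.1 v.2) ∧
    ¬ PSol (H * Real.log H ^ κ) (cr v.1 v.2))).card : ℝ) ≤ η * ((2 * H + 1 : ℕ) : ℝ) ^ 6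

open Classical in
/-- Part MAINT: almost all coefficients. -/
def S_MAINT : Prop := ∃ κ : ℕ, ∀ η : ℝ, 0 < η → ∃ A₀ : ℕ, ∀ A : ℕ, A₀ ≤ A →
  (((V3 A).filter (fun a => Adm a ∧
    ¬ PSol ((A : ℝ) ^ (1 / 2 : ℝ) * Real.log A ^ κ) a)).card : ℝ) ≤ η * (A : ℝ) ^ 3

open Classical in
/-- Part DENS: a positive proportion of the vectors satisfies the conditions. -/
def S_DENS : Prop := ∃ c₀ : ℝ, 0 < c₀ ∧ ∃ A₀ : ℕ, ∀ A : ℕ, A₀ ≤ A →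
  c₀ * (A : ℝ) ^ 3 ≤ (((V3 A).filter (fun a => Adm a)).card : ℝ)

end Pool.Agent.N718.LB
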