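import Mathlib
import Pool.Agent.N718.LB.Stm

/-!
# Small prime solutions of `a p + b q + c r = 0` for almost all `(a, b, c)`: the final statement
-/

set_option autoImplicit false
set_option linter.all false

namespace Pool.Agent.N718.LB.F

open Finset Filter Topology

/-- The quadruple `(a, b, c, d)` is admissible. -/
structure Admissible (a b c d : ℤ) : Prop where
  a_ne : a ≠ 0
  b_ne : b ≠ 0
  c_ne : c ≠ 0
  not_pos : ¬ (0 < a ∧ 0 < b ∧ 0 < c)
  not_neg : ¬ (a < 0 ∧ b < 0 ∧ c < 0)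
  even : Even (a + b + c - d)
  gcd_abc : Int.gcd (Int.gcd a b) c = 1
  gcd_dab : Int.gcd (Int.gcd d a) b = 1
  gcd_dac : Int.gcd (Int.gcd d a) c = 1
  gcd_dbc : Int.gcd (Int.gcd d b) c = 1

/-- The equation `a p + b q + c r = d` has a solution in primes with `max(p, q, r) ≤ 3 |d| + m ^ μ`,
`m = max(3, |a|, |b|, |c|)`. -/
def SmallSolution (μ : ℝ) (a b c d : ℤ) : Prop :=
  ∃ p q r : ℕ, p.Prime ∧ q.Prime ∧ r.Prime ∧ a * p + b * q + c * r = d ∧
    ((max p (max q r) : ℕ) : ℝ) ≤ 3 * |(d : ℝ)| + ((max 3 (max |a| (max |b| |c|)) : ℤ) : ℝ) ^ μ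

/-- The equation `a p + b q + c r = 0` has a solution in primes which are at most `X`. -/
def PrimeSolution (X : ℝ) (a b c : ℤ) : Prop :=
  ∃ p q r : ℕ, p.Prime ∧ q.Prime ∧ r.Prime ∧ a * p + b * q + c * r = 0 ∧
    ((max p (max q r) : ℕ) : ℝ) ≤ X

/-- The equation `a x + b y + c z = 0` has a solution in integers, not all zero, of absolute value at
most `X`. -/
def IntegerSolution (X : ℝ) (a b c : ℤ) : Prop :=
  ∃ x y z : ℤ, ¬ (x = 0 ∧ y = 0 ∧ z = 0) ∧ a * x + b * y + c * z = 0 ∧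
    ((max |x| (max |y| |z|) : ℤ) : ℝ) ≤ X

open Classical in
/-- The triples of integers `a, b, c` of absolute value at most `A` for which `(a, b, c, 0)` is
admissible. -/
noncomputable def triples (A : ℕ) : Finset (ℤ × ℤ × ℤ) :=
  (Icc (-(A : ℤ)) A ×ˢ Icc (-(A : ℤ)) A ×ˢ Icc (-(A : ℤ)) A).filter
    (fun t => Admissible t.1 t.2.1 t.2.2 0)

open Classical in
/-- The proportion of the triples with the property `Q`. -/
noncomputable def proportion (A : ℕ) (Q : ℤ → ℤ → ℤ → Prop) : ℝ :=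
  (((triples A).filter (fun t => Q t.1 t.2.1 t.2.2)).card : ℝ) / ((triples A).card : ℝ)

/-- The final statement. -/
def S_FIN : Prop :=
  (∃ c₀ : ℝ, 0 < c₀ ∧ ∀ᶠ A : ℕ in atTop, c₀ * (A : ℝ) ^ 3 ≤ ((triples A).card : ℝ)) ∧
  (∃ κ : ℕ, Tendsto (fun A : ℕ =>
    proportion A (PrimeSolution ((A : ℝ) ^ (1 / 2 : ℝ) * Real.log A ^ κ))) atTop (𝓝 1)) ∧
  (∀ ψ : ℕ → ℝ, Tendsto ψ atTop atTop → Tendsto (fun A : ℕ =>
    proportion A (IntegerSolution ((A : ℝ) ^ (1 / 2 : ℝ) / ψ A))) atTop (𝓝 0)) ∧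
  (∀ μ : ℝ, 1 / 2 < μ → Tendsto (fun A : ℕ =>
    proportion A (fun a b c => SmallSolution μ a b c 0)) atTop (𝓝 1)) ∧
  (∀ μ : ℝ, μ < 1 / 2 → Tendsto (fun A : ℕ =>
    proportion A (fun a b c => SmallSolution μ a b c 0)) atTop (𝓝 0))

end Pool.Agent.N718.LB.F
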