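import Mathlib
import Pool.Agent.N718.DC.All
import Pool.Agent.N718.LB.Stm
import Pool.Agent.N394.LB.PTSK
import Pool.Agent.N134.LB.LAMT
import Pool.Agent.N654.LB.LAT
import Pool.Agent.N232.LB.SHORT
import Pool.Agent.N11.LB.LOC
import Pool.Agent.N27.LB.Sign
import Pool.Agent.N896.LB.INT
import Pool.Agent.N514.LB.MAINL
import Pool.Agent.N946.LB.MAINT
import Pool.Agent.N40.LB.Dens

/-!
# Assembly of project LB (helper718)
-/

set_option autoImplicit false

namespace Pool.Agent.N718.LB

theorem ptsk : S_PTSK := Pool.Agent.N394.LB.ptsk_ Pool.Agent.N718.DC.sw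
theorem lamt : S_LAMT := Pool.Agent.N134.LB.lamt_ Pool.Agent.N718.DC.fix' ptsk
theorem lat : S_LAT := Pool.Agent.N654.LB.lat_
theorem short : S_SHORT := Pool.Agent.N232.LB.short_
theorem loc : S_LOC := Pool.Agent.N11.LB.loc_
theorem sgn : S_SIGN := Pool.Agent.N27.LB.sign_
theorem int : S_INT := Pool.Agent.N896.LB.int_
theorem mainl : S_MAINL := Pool.Agent.N514.LB.mainl_ lamt loc sgn int
theorem maint : S_MAINT := Pool.Agent.N946.LB.maint_ mainl lat short
theorem dens : S_DENS := Pool.Agent.N40.LB.dens_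

end Pool.Agent.N718.LB
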